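import Pool.Agent.Helper69.SM.Lower
import Pool.Agent.Helper69.SM.MV
import Pool.Agent.Helper69.PP.W2
import Pool.Agent.Helper4.PPZ.Local
import Pool.Agent.Helper4.SH.PPow
import Pool.Agent.Helper4.SH.Kernels
import Pool.Agent.Helper4.SH.Num
import Pool.Agent.Helper4.SH.Weights

/-!
# Very small gaps in short intervals: mean values of `|M|²` (N = ⌊T^a⌋, `2a < b`, interval `[T, T + T^b]`)
-/

open MeasureTheory Set Filter Topology
open Pool.Agent.Helper57.Zeta Pool.Agent.Helper57.PC Pool.Agent.Helper57.LH Pool.Agent.Helper78.SG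
open Pool.Agent.Helper4.SH
open scoped ContDiff

namespace Pool.Agent.Helper69.SM

open scoped ArithmeticFunction.vonMangoldt

/-- the length of the polynomial -/
noncomputable def NN (a T : ℝ) : ℕ := ⌊T ^ a⌋₊

theorem NN_le {a T : ℝ} (hT : 0 ≤ T) : (NN a T : ℝ) ≤ T ^ a := Nat.floor_le (Real.rpow_nonneg hT a)

theorem one_le_NN {a T : ℝ} (ha : 0 < a) (hT : 1 ≤ T) : 1 ≤ NN a T :=
  Nat.le_floor (by simpa using Real.one_le_rpow hT ha.le)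

/-! ### Elementary facts about `FM` -/

theorem FM_eq (N : ℕ) (t : ℝ) : FM N t = ∑ x ∈ CP N, ∑ y ∈ CP N, cf x * cf y *
    Real.cos (t * ((Real.log x.1 - Real.log x.2) - (Real.log y.1 - Real.log y.2))) := by
  unfold FM
  rw [Finset.sum_product]
  refine Finset.sum_congr rfl fun x hx => Finset.sum_congr rfl fun y hy => ?_
  obtain ⟨⟨a1, -⟩, ⟨a2, -⟩, -⟩ := mem_CP.1 hx
  obtain ⟨⟨b1, -⟩, ⟨b2, -⟩, -⟩ := mem_CP.1 hy
  have a1' : (x.1 : ℝ) ≠ 0 := by exact_mod_cast (by omega : x.1 ≠ 0)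
  have a2' : (x.2 : ℝ) ≠ 0 := by exact_mod_cast (by omega : x.2 ≠ 0)
  have b1' : (y.1 : ℝ) ≠ 0 := by exact_mod_cast (by omega : y.1 ≠ 0)
  have b2' : (y.2 : ℝ) ≠ 0 := by exact_mod_cast (by omega : y.2 ≠ 0)
  simp only [Nat.cast_mul]
  rw [Real.log_mul a1' b2', Real.log_mul a2' b1']
  congr 2
  ring

theorem FM_nonneg (N : ℕ) (t : ℝ) : 0 ≤ FM N t := by
  have h : FM N t = (∑ x ∈ CP N, cf x * Real.cos (t * (Real.log x.1 - Real.log x.2))) ^ 2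
      + (∑ x ∈ CP N, cf x * Real.sin (t * (Real.log x.1 - Real.log x.2))) ^ 2 := by
    rw [FM_eq, pow_two, pow_two, Finset.sum_mul_sum, Finset.sum_mul_sum, ← Finset.sum_add_distrib]
    refine Finset.sum_congr rfl fun x _ => ?_
    rw [← Finset.sum_add_distrib]
    refine Finset.sum_congr rfl fun y _ => ?_
    rw [mul_sub t (Real.log x.1 - Real.log x.2), Real.cos_sub]
    ring
  rw [h]
  positivity

theorem FM_cont (N : ℕ) : Continuous (FM N) := by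
  unfold FM
  refine continuous_finsetSum _ fun x _ => ?_
  fun_prop

private theorem CP_card (N : ℕ) : ((CP N).card : ℝ) ≤ (N : ℝ) ^ 2 := by
  unfold CP
  have h1 := Finset.card_filter_le ((Finset.Icc 1 N) ×ˢ (Finset.Icc 1 N)) (fun x => Nat.Coprime x.1 x.2)
  rw [Finset.card_product, Nat.card_Icc, Nat.add_sub_cancel] at h1
  have h2 : (((Finset.Icc 1 N ×ˢ Finset.Icc 1 N).filter (fun x => Nat.Coprime x.1 x.2)).card : ℝ) ≤ ((N * N : ℕ) : ℝ) := by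
    exact_mod_cast h1
  refine h2.trans (le_of_eq ?_)
  push_cast
  ring

private theorem sumsqrtS (N : ℕ) :
    ∑ i ∈ Finset.Icc 1 N, 1 / Real.sqrt (i : ℝ) ≤ 2 * Real.sqrt N := by
  induction N with
  | zero => simp
  | succ N ih =>
    rw [Finset.sum_Icc_succ_top (by omega)]
    have h0 : 0 ≤ Real.sqrt N := Real.sqrt_nonneg _
    have h1 : 0 < Real.sqrt ((N : ℝ) + 1) := Real.sqrt_pos.mpr (by positivity)
    have h2 : Real.sqrt N ^ 2 = N := Real.sq_sqrt (Nat.cast_nonneg N)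
    have h3 : Real.sqrt ((N : ℝ) + 1) ^ 2 = N + 1 := Real.sq_sqrt (by positivity)
    have h4 : Real.sqrt N ≤ Real.sqrt ((N : ℝ) + 1) := Real.sqrt_le_sqrt (by linarith)
    have h5 : 1 / Real.sqrt ((N : ℝ) + 1) ≤ 2 * Real.sqrt ((N : ℝ) + 1) - 2 * Real.sqrt N := by
      rw [div_le_iff₀ h1]
      nlinarith
    push_cast
    linarith

/-- `∑ |cf| ≤ 4 N` -/
theorem sum_cfS (N : ℕ) : ∑ x ∈ CP N, |cf x| ≤ 4 * N := by
  have h1 : ∑ x ∈ CP N, |cf x| ≤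
      ∑ x ∈ (Finset.Icc 1 N) ×ˢ (Finset.Icc 1 N), 1 / Real.sqrt x.1 * (1 / Real.sqrt x.2) := by
    have e : ∀ x : ℕ × ℕ, |cf x| = 1 / Real.sqrt x.1 * (1 / Real.sqrt x.2) := by
      intro x
      unfold cf
      rw [abs_div, abs_mul, lam_abs, lam_abs, abs_of_nonneg (Real.sqrt_nonneg _),
        Real.sqrt_mul (Nat.cast_nonneg _), mul_one, div_mul_div_comm, mul_one]
    simp_rw [e]
    refine Finset.sum_le_sum_of_subset_of_nonneg ?_ fun x _ _ => by positivity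
    unfold CP
    exact Finset.filter_subset _ _
  have s := sumsqrtS N
  have s0 : 0 ≤ ∑ i ∈ Finset.Icc 1 N, 1 / Real.sqrt (i : ℝ) := Finset.sum_nonneg fun _ _ => by positivity
  have h2 : ∑ x ∈ (Finset.Icc 1 N) ×ˢ (Finset.Icc 1 N), 1 / Real.sqrt (x.1 : ℝ) * (1 / Real.sqrt (x.2 : ℝ)) =
      (∑ i ∈ Finset.Icc 1 N, 1 / Real.sqrt (i : ℝ)) * ∑ j ∈ Finset.Icc 1 N, 1 / Real.sqrt (j : ℝ) := by
    rw [Finset.sum_mul_sum, Finset.sum_product]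
  refine h1.trans ?_
  rw [h2]
  calc (∑ i ∈ Finset.Icc 1 N, 1 / Real.sqrt (i : ℝ)) * ∑ j ∈ Finset.Icc 1 N, 1 / Real.sqrt (j : ℝ)
      ≤ (2 * Real.sqrt N) * (2 * Real.sqrt N) := mul_le_mul s s s0 (s0.trans s)
    _ = 4 * (Real.sqrt N * Real.sqrt N) := by ring
    _ = 4 * N := by rw [Real.mul_self_sqrt (Nat.cast_nonneg N)]

/-- the sum of the absolute values of the coefficients of `FM` -/
theorem sum_cfcf (N : ℕ) : ∑ z ∈ CP N ×ˢ CP N, |cf z.1 * cf z.2| ≤ 16 * (N : ℝ) ^ 2 := by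
  rw [Finset.sum_product]
  simp only [abs_mul]
  rw [← Finset.sum_mul_sum]
  have h := sum_cfS N
  have h0 : 0 ≤ ∑ x ∈ CP N, |cf x| := Finset.sum_nonneg fun _ _ => abs_nonneg _
  calc (∑ x ∈ CP N, |cf x|) * ∑ x ∈ CP N, |cf x| ≤ (4 * N) * (4 * N) := mul_le_mul h h h0 (h0.trans h)
    _ = 16 * (N : ℝ) ^ 2 := by ring

theorem FM_abs (N : ℕ) (t : ℝ) : |FM N t| ≤ 16 * (N : ℝ) ^ 2 := by
  unfold FM
  refine (Finset.abs_sum_le_sum_abs _ _).trans ((Finset.sum_le_sum fun z _ => ?_).trans (sum_cfcf N))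
  rw [abs_mul]
  exact mul_le_of_le_one_right (abs_nonneg _) (Real.abs_cos_le_one _)

theorem NN_sq {a T : ℝ} (hT : 0 < T) : ((NN a T : ℕ) : ℝ) ^ 2 ≤ T ^ (2 * a) := by
  have h := NN_le (a := a) hT.le
  calc ((NN a T : ℕ) : ℝ) ^ 2 ≤ (T ^ a) ^ 2 := pow_le_pow_left₀ (Nat.cast_nonneg _) h 2
    _ = T ^ (2 * a) := by rw [← Real.rpow_natCast, ← Real.rpow_mul hT.le]; congr 1; push_cast; ring

theorem FM_crude (a : ℝ) : ∀ᶠ T : ℝ in atTop, ∀ t : ℝ, |FM (NN a T) t| ≤ 16 * T ^ (2 * a) := by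
  filter_upwards [eventually_gt_atTop (0 : ℝ)] with T hT t
  refine (FM_abs _ t).trans ?_
  exact mul_le_mul_of_nonneg_left (NN_sq hT) (by norm_num)

/-! ### Mean values -/

/-- the size of `n m'` -/
theorem prod_leS {N : ℕ} {x y : ℕ × ℕ} (hx : x ∈ CP N) (hy : y ∈ CP N) : ((x.2 * y.1 : ℕ) : ℝ) ≤ (N : ℝ) ^ 2 := by
  obtain ⟨-, ⟨-, h2⟩, -⟩ := mem_CP.1 hx
  obtain ⟨⟨-, h1⟩, -, -⟩ := mem_CP.1 hy
  have : x.2 * y.1 ≤ N * N := Nat.mul_le_mul h2 h1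
  calc ((x.2 * y.1 : ℕ) : ℝ) ≤ ((N * N : ℕ) : ℝ) := by exact_mod_cast this
    _ = (N : ℝ) ^ 2 := by push_cast; ring

/-- powers of the height -/
private theorem rr {b δ a T : ℝ} (hT : 0 < T) (hδ : b * (1 - δ) = 2 * a) : (T ^ b) ^ (1 - δ) = T ^ (2 * a) := by
  rw [← Real.rpow_mul hT.le, hδ]

theorem mean_FM (g : TF) {a b : ℝ} (hb : 0 < b) (hab : 2 * a < b) {ε : ℝ} (hε : 0 < ε) : ∀ᶠ T : ℝ in atTop,
    |(∫ t, wt g.h T (T ^ b) t * FM (NN a T) t) - T ^ b * (∫ x, g.h x) * AN (NN a T)| ≤ ε * T ^ b := by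
  obtain ⟨δ, hδ⟩ : ∃ δ : ℝ, δ = 1 - 2 * a / b := ⟨_, rfl⟩
  have hδ0 : 0 < δ := by
    rw [hδ, sub_pos, div_lt_one hb]
    exact hab
  have hδ1 : b * (1 - δ) = 2 * a := by
    rw [hδ]
    field_simp
    ring
  obtain ⟨K, hK⟩ : ∃ K : ℕ, 1 ≤ δ * K := by
    refine ⟨⌈1 / δ⌉₊, ?_⟩
    have h1 := Nat.le_ceil (1 / δ)
    rw [div_le_iff₀ hδ0] at h1
    linarith
  obtain ⟨C, hC, hmv⟩ := gmvS g hδ0 K
  filter_upwards [eventually_gt_atTop 1, pow_ev2 (16 * C) hab hε] with T hT hpow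
  have hT0 : 0 < T := by linarith
  have hH : 1 ≤ T ^ b := Real.one_le_rpow hT.le hb.le
  have key := hmv T (T ^ b) hH ((ℕ × ℕ) × (ℕ × ℕ)) (CP (NN a T) ×ˢ CP (NN a T))
    (fun z => cf z.1 * cf z.2) (fun z => z.1.1 * z.2.2) (fun z => z.1.2 * z.2.1) ?_
  · rw [diag_sum] at key
    have e1 : ∀ t, (∑ z ∈ CP (NN a T) ×ˢ CP (NN a T), cf z.1 * cf z.2 *
        Real.cos (t * (Real.log ((z.1.1 * z.2.2 : ℕ) : ℝ) - Real.log ((z.1.2 * z.2.1 : ℕ) : ℝ)))) = FM (NN a T) t :=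
      fun t => rfl
    simp only [e1] at key
    refine key.trans ?_
    have e4 : (T ^ b) ^ ((1 : ℝ) - δ * K) ≤ 1 := Real.rpow_le_one_of_one_le_of_nonpos hH (by linarith)
    have e5 : 0 ≤ (T ^ b) ^ ((1 : ℝ) - δ * K) := Real.rpow_nonneg (by linarith) _
    have e6 : 0 ≤ ∑ z ∈ CP (NN a T) ×ˢ CP (NN a T), |cf z.1 * cf z.2| := Finset.sum_nonneg fun _ _ => abs_nonneg _
    have e7 : ∑ z ∈ CP (NN a T) ×ˢ CP (NN a T), |cf z.1 * cf z.2| ≤ 16 * T ^ (2 * a) :=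
      (sum_cfcf _).trans (mul_le_mul_of_nonneg_left (NN_sq hT0) (by norm_num))
    calc C * (T ^ b) ^ ((1 : ℝ) - δ * K) * ∑ z ∈ CP (NN a T) ×ˢ CP (NN a T), |cf z.1 * cf z.2|
        ≤ C * 1 * (16 * T ^ (2 * a)) := by gcongr
      _ = 16 * C * T ^ (2 * a) := by ring
      _ ≤ ε * T ^ b := hpow
  · intro z hz
    rw [Finset.mem_product] at hz
    obtain ⟨⟨a1, -⟩, ⟨a2, -⟩, -⟩ := mem_CP.1 hz.1
    obtain ⟨⟨b1, -⟩, ⟨b2, -⟩, -⟩ := mem_CP.1 hz.2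
    refine ⟨Nat.mul_pos a1 b2, Nat.mul_pos a2 b1, ?_⟩
    rw [rr hT0 hδ1]
    have h3 : ((min (z.1.1 * z.2.2) (z.1.2 * z.2.1) : ℕ) : ℝ) ≤ ((z.1.2 * z.2.1 : ℕ) : ℝ) := by
      exact_mod_cast min_le_right _ _
    exact h3.trans ((prod_leS hz.1 hz.2).trans (NN_sq hT0))

private theorem e4_sinS (N : ℕ) (t : ℝ) :
    ∑ z ∈ CP N ×ˢ CP N, (cf z.1 * cf z.2) *
      Real.sin (t * (Real.log ((z.1.1 * z.2.2 : ℕ) : ℝ) - Real.log ((z.1.2 * z.2.1 : ℕ) : ℝ))) = 0 := by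
  have h : ∑ z ∈ CP N ×ˢ CP N, (cf z.1 * cf z.2) *
      Real.sin (t * (Real.log ((z.1.1 * z.2.2 : ℕ) : ℝ) - Real.log ((z.1.2 * z.2.1 : ℕ) : ℝ))) =
      -∑ z ∈ CP N ×ˢ CP N, (cf z.1 * cf z.2) *
      Real.sin (t * (Real.log ((z.1.1 * z.2.2 : ℕ) : ℝ) - Real.log ((z.1.2 * z.2.1 : ℕ) : ℝ))) := by
    conv_lhs => rw [Finset.sum_product_right]
    rw [Finset.sum_product, ← Finset.sum_neg_distrib]
    refine Finset.sum_congr rfl fun x _ => ?_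
    rw [← Finset.sum_neg_distrib]
    refine Finset.sum_congr rfl fun y _ => ?_
    simp only
    rw [mul_comm (cf y) (cf x), mul_comm y.1 x.2, mul_comm y.2 x.1,
      show t * (Real.log ((x.2 * y.1 : ℕ) : ℝ) - Real.log ((x.1 * y.2 : ℕ) : ℝ)) =
        -(t * (Real.log ((x.1 * y.2 : ℕ) : ℝ) - Real.log ((x.2 * y.1 : ℕ) : ℝ))) by ring, Real.sin_neg]
    ring
  linarith

private noncomputable def RNS (T : ℝ) : Finset ℕ := Finset.Icc 1 ⌊T⌋₊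

private noncomputable def ckS (f : TF) (T : ℝ) (i : ((ℕ × ℕ) × (ℕ × ℕ)) × ℕ) : ℝ :=
  cf i.1.1 * cf i.1.2 * cc71 f.h 2 T i.2

private def aiS (i : ((ℕ × ℕ) × (ℕ × ℕ)) × ℕ) : ℕ := i.2 * (i.1.1.1 * i.1.2.2)

private def biS (i : ((ℕ × ℕ) × (ℕ × ℕ)) × ℕ) : ℕ := i.1.1.2 * i.1.2.1

private theorem RNS_range (T : ℝ) (F : ℕ → ℝ) (h0 : F 0 = 0) :
    ∑ n ∈ Finset.range (⌊T⌋₊ + 1), F n = ∑ n ∈ RNS T, F n := by
  symm
  refine Finset.sum_subset ?_ ?_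
  · intro n hn
    have := Finset.mem_Icc.1 hn
    exact Finset.mem_range.2 (by omega)
  · intro n hn hn2
    have h1 := Finset.mem_range.1 hn
    have h2 : n = 0 := by
      by_contra h
      exact hn2 (Finset.mem_Icc.2 ⟨by omega, by omega⟩)
    rw [h2, h0]

private theorem FMpss (N : ℕ) (f : TF) {T : ℝ} (hT : 1 < T) (t : ℝ) :
    FM N t * pss f.h 2 T t = ∑ i ∈ (CP N ×ˢ CP N) ×ˢ RNS T,
      ckS f T i * Real.cos (t * (Real.log (aiS i) - Real.log (biS i))) := by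
  have hpss : pss f.h 2 T t = ∑ n ∈ RNS T, cc71 f.h 2 T n * Real.cos (Real.log n * t) := by
    rw [pss_eq71 f (Or.inr rfl) hT t]
    exact RNS_range T _ (by simp [cc71])
  rw [hpss, Finset.mul_sum, Finset.sum_product_right]
  refine Finset.sum_congr rfl fun n hn => ?_
  have hn0 : (n : ℝ) ≠ 0 := by
    have := (Finset.mem_Icc.1 hn).1
    exact_mod_cast (by omega : n ≠ 0)
  have e1 : ∑ z ∈ CP N ×ˢ CP N,
      ckS f T (z, n) * Real.cos (t * (Real.log (aiS (z, n)) - Real.log (biS (z, n)))) =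
      ∑ z ∈ CP N ×ˢ CP N, (cc71 f.h 2 T n * Real.cos (Real.log n * t) *
          ((cf z.1 * cf z.2) * Real.cos (t * (Real.log ((z.1.1 * z.2.2 : ℕ) : ℝ) - Real.log ((z.1.2 * z.2.1 : ℕ) : ℝ)))) -
        cc71 f.h 2 T n * Real.sin (Real.log n * t) *
          ((cf z.1 * cf z.2) * Real.sin (t * (Real.log ((z.1.1 * z.2.2 : ℕ) : ℝ) - Real.log ((z.1.2 * z.2.1 : ℕ) : ℝ))))) := by
    refine Finset.sum_congr rfl fun z hz => ?_
    rw [Finset.mem_product] at hz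
    obtain ⟨⟨a1, -⟩, ⟨a2, -⟩, -⟩ := mem_CP.1 hz.1
    obtain ⟨⟨b1, -⟩, ⟨b2, -⟩, -⟩ := mem_CP.1 hz.2
    have h1 : ((z.1.1 * z.2.2 : ℕ) : ℝ) ≠ 0 := by exact_mod_cast (Nat.mul_pos a1 b2).ne'
    simp only [ckS, aiS, biS]
    rw [Nat.cast_mul n, Real.log_mul hn0 h1]
    have e2 : t * (Real.log n + Real.log ((z.1.1 * z.2.2 : ℕ) : ℝ) - Real.log ((z.1.2 * z.2.1 : ℕ) : ℝ)) =
        t * (Real.log ((z.1.1 * z.2.2 : ℕ) : ℝ) - Real.log ((z.1.2 * z.2.1 : ℕ) : ℝ)) + Real.log n * t := by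
      ring
    rw [e2, Real.cos_add]
    ring
  rw [e1, Finset.sum_sub_distrib, ← Finset.mul_sum, ← Finset.mul_sum, e4_sinS, mul_zero, sub_zero]
  unfold FM
  ring

/-- the kernel: the Fourier transform of the window on the frequencies that occur -/
def KS (a c : ℝ) (f : TF) : Prop := ∀ y : ℝ, |y| ≤ a → f.h y = SB c (2 * y)

/-- the diagonal of `|M|²` times the prime sum -/
private theorem diag_pss {a c : ℝ} (ha : 0 < a) (ha2 : a < 1 / 2) {f : TF} (hf : KS a c f) {T : ℝ} (hT : 1 < T) :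
    ∑ i ∈ (CP (NN a T) ×ˢ CP (NN a T)) ×ˢ RNS T, (if aiS i = biS i then ckS f T i else 0) = - BN c T (NN a T) := by
  have hT0 : 0 < T := by linarith
  have hL : 0 < Real.log T := Real.log_pos hT
  set N := NN a T with hN
  have hNT : N ^ 2 ≤ ⌊T⌋₊ := by
    apply Nat.le_floor
    push_cast
    refine (NN_sq hT0).trans ?_
    calc T ^ (2 * a) ≤ T ^ (1 : ℝ) := Real.rpow_le_rpow_of_exponent_le hT.le (by linarith)
      _ = T := Real.rpow_one T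
  rw [Finset.sum_product_right]
  have h1 : ∀ k ∈ RNS T, ∑ z ∈ CP N ×ˢ CP N, (if aiS (z, k) = biS (z, k) then ckS f T (z, k) else 0) =
      cc71 f.h 2 T k * (lam k / Real.sqrt k * EN N k) := by
    intro k hk
    have hk0 : k ≠ 0 := by
      have := (Finset.mem_Icc.1 hk).1
      omega
    rw [← diag_k N hk0, Finset.mul_sum]
    refine Finset.sum_congr rfl fun z _ => ?_
    simp only [aiS, biS, ckS]
    split_ifs
    · ring
    · ring
  rw [Finset.sum_congr rfl h1]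
  unfold BN
  rw [neg_neg]
  symm
  have hsub : Finset.Icc 1 (N ^ 2) ⊆ RNS T := by
    intro k hk
    rw [Finset.mem_Icc] at hk
    exact Finset.mem_Icc.2 ⟨hk.1, hk.2.trans hNT⟩
  have h2 : ∀ k ∈ Finset.Icc 1 (N ^ 2), pk c T k * (lam k / Real.sqrt k * EN N k) =
      cc71 f.h 2 T k * (lam k / Real.sqrt k * EN N k) := by
    intro k hk
    rw [Finset.mem_Icc] at hk
    congr 1
    have hk0 : (0 : ℝ) < k := by exact_mod_cast hk.1
    have hkT : (k : ℝ) ≤ T ^ (2 * a) := by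
      refine le_trans ?_ (NN_sq hT0)
      exact_mod_cast hk.2
    have hy : |yy T k / 2| ≤ a := by
      have h3 : 0 ≤ Real.log k := Real.log_natCast_nonneg k
      have h4 : Real.log k ≤ 2 * a * Real.log T := by
        rw [← Real.log_rpow hT0]
        exact Real.log_le_log hk0 hkT
      unfold yy
      rw [abs_of_nonneg (by positivity), div_le_iff₀ (by norm_num), div_le_iff₀ hL]
      linarith
    unfold cc71 pk
    rw [hf _ hy, show 2 * (yy T k / 2) = yy T k by ring]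
    unfold yy
    ring
  rw [Finset.sum_congr rfl h2]
  refine Finset.sum_subset hsub ?_
  intro k _ hk2
  have hk3 : N ^ 2 < k := by
    by_contra hcon
    apply hk2
    have : 1 ≤ k := (Finset.mem_Icc.1 (by assumption)).1
    exact Finset.mem_Icc.2 ⟨this, not_lt.1 hcon⟩
  rw [EN_zero hk3, mul_zero, mul_zero]

theorem mean_FMpss (g : TF) {a b c : ℝ} (ha : 0 < a) (ha2 : a < 1 / 2) (hb : 0 < b) (hab : 2 * a < b) {f : TF}
    (hf : KS a c f) {ε : ℝ} (hε : 0 < ε) : ∀ᶠ T : ℝ in atTop,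
    |(∫ t, wt g.h T (T ^ b) t * (FM (NN a T) t * pss f.h 2 T t)) + T ^ b * (∫ x, g.h x) * BN c T (NN a T)| ≤
      ε * T ^ b := by
  obtain ⟨δ, hδ⟩ : ∃ δ : ℝ, δ = 1 - 2 * a / b := ⟨_, rfl⟩
  have hδ0 : 0 < δ := by
    rw [hδ, sub_pos, div_lt_one hb]
    exact hab
  have hδ1 : b * (1 - δ) = 2 * a := by
    rw [hδ]
    field_simp
    ring
  obtain ⟨K, hK⟩ : ∃ K : ℕ, b + 2 ≤ b * δ * K := by
    refine ⟨⌈(b + 2) / (b * δ)⌉₊, ?_⟩
    have h1 := Nat.le_ceil ((b + 2) / (b * δ))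
    rw [div_le_iff₀ (by positivity)] at h1
    linarith
  obtain ⟨C, hC, hmv⟩ := gmvS g hδ0 K
  obtain ⟨M, hM, hMb⟩ := tf_bdd71 f
  filter_upwards [eventually_gt_atTop 1, (tendsto_rpow_atTop hb).eventually_ge_atTop (32 * C * M / ε)] with T hT hTC
  have hT0 : 0 < T := by linarith
  have hH : 1 ≤ T ^ b := Real.one_le_rpow hT.le hb.le
  have key := hmv T (T ^ b) hH _ ((CP (NN a T) ×ˢ CP (NN a T)) ×ˢ RNS T) (ckS f T) aiS biS ?_
  · simp only [← FMpss (NN a T) f hT] at key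
    rw [diag_pss ha ha2 hf hT, mul_neg, sub_neg_eq_add] at key
    refine key.trans ?_
    have h1 : ∑ n ∈ RNS T, |cc71 f.h 2 T n| ≤ 2 * M * T := by
      have h2 : ∀ n ∈ RNS T, |cc71 f.h 2 T n| ≤ 2 * M := by
        intro n hn
        have h3 := Finset.mem_Icc.1 hn
        exact cc_bd71 hMb hT (Finset.mem_range.2 (by omega)) h3.1
      have h4 : ((RNS T).card : ℝ) ≤ T := by
        rw [RNS, Nat.card_Icc, Nat.add_sub_cancel]
        exact Nat.floor_le hT0.le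
      calc ∑ n ∈ RNS T, |cc71 f.h 2 T n| ≤ ∑ _n ∈ RNS T, 2 * M := Finset.sum_le_sum h2
        _ = (RNS T).card * (2 * M) := by rw [Finset.sum_const, nsmul_eq_mul]
        _ ≤ T * (2 * M) := mul_le_mul_of_nonneg_right h4 (by positivity)
        _ = 2 * M * T := by ring
    have h0' : 0 ≤ ∑ n ∈ RNS T, |cc71 f.h 2 T n| := Finset.sum_nonneg fun _ _ => abs_nonneg _
    have h4 : ∑ i ∈ (CP (NN a T) ×ˢ CP (NN a T)) ×ˢ RNS T, |ckS f T i| =
        (∑ z ∈ CP (NN a T) ×ˢ CP (NN a T), |cf z.1 * cf z.2|) * ∑ n ∈ RNS T, |cc71 f.h 2 T n| := by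
      rw [Finset.sum_product, Finset.sum_mul_sum]
      refine Finset.sum_congr rfl fun z _ => Finset.sum_congr rfl fun n _ => ?_
      simp only [ckS]
      rw [abs_mul]
    have e7 : ∑ z ∈ CP (NN a T) ×ˢ CP (NN a T), |cf z.1 * cf z.2| ≤ 16 * T ^ (2 * a) :=
      (sum_cfcf _).trans (mul_le_mul_of_nonneg_left (NN_sq hT0) (by norm_num))
    have e8 : ∑ i ∈ (CP (NN a T) ×ˢ CP (NN a T)) ×ˢ RNS T, |ckS f T i| ≤ (16 * T ^ (2 * a)) * (2 * M * T) := by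
      rw [h4]
      exact mul_le_mul e7 h1 h0' (by positivity)
    have e5 : 0 ≤ (T ^ b) ^ (1 - δ * (K : ℝ)) := Real.rpow_nonneg (by linarith) _
    have e6 : (T ^ b) ^ (1 - δ * (K : ℝ)) * (T ^ (2 * a) * T) ≤ 1 := by
      have h1 : (T ^ b) ^ (1 - δ * (K : ℝ)) * (T ^ (2 * a) * T) =
          T ^ (b * (1 - δ * (K : ℝ)) + (2 * a + 1)) := by
        rw [← Real.rpow_mul hT0.le, Real.rpow_add hT0, Real.rpow_add hT0 (2 * a), Real.rpow_one]
      rw [h1]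
      exact Real.rpow_le_one_of_one_le_of_nonpos hT.le (by nlinarith)
    calc C * (T ^ b) ^ (1 - δ * (K : ℝ)) * ∑ i ∈ (CP (NN a T) ×ˢ CP (NN a T)) ×ˢ RNS T, |ckS f T i|
        ≤ C * (T ^ b) ^ (1 - δ * (K : ℝ)) * ((16 * T ^ (2 * a)) * (2 * M * T)) :=
          mul_le_mul_of_nonneg_left e8 (mul_nonneg hC.le e5)
      _ = 32 * C * M * ((T ^ b) ^ (1 - δ * (K : ℝ)) * (T ^ (2 * a) * T)) := by ring
      _ ≤ 32 * C * M * 1 := mul_le_mul_of_nonneg_left e6 (by positivity)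
      _ ≤ ε * T ^ b := by
          rw [div_le_iff₀ hε] at hTC
          linarith
  · rintro ⟨⟨x, y⟩, n⟩ hi
    rw [Finset.mem_product, Finset.mem_product] at hi
    obtain ⟨⟨hx, hy⟩, hn⟩ := hi
    obtain ⟨⟨a1, -⟩, ⟨a2, -⟩, -⟩ := mem_CP.1 hx
    obtain ⟨⟨b1, -⟩, ⟨b2, -⟩, -⟩ := mem_CP.1 hy
    have hn1 := (Finset.mem_Icc.1 hn).1
    refine ⟨Nat.mul_pos hn1 (Nat.mul_pos a1 b2), Nat.mul_pos a2 b1, ?_⟩
    rw [rr hT0 hδ1]
    have h1 : ((min (aiS ((x, y), n)) (biS ((x, y), n)) : ℕ) : ℝ) ≤ biS ((x, y), n) := by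
      exact_mod_cast min_le_right _ _
    refine h1.trans ((prod_leS hx hy).trans (NN_sq hT0))

end Pool.Agent.Helper69.SM
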