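import Pool.Agent.Helper47.RGap.SM1

/-!
# Very small gaps in short intervals: window identity and the main theorem
-/

open MeasureTheory Set Filter Topology
open Pool.Agent.Helper57.Zeta Pool.Agent.Helper57.PC Pool.Agent.Helper57.LH Pool.Agent.Helper78.SG
open Pool.Agent.Helper4.SH
open scoped ContDiff

namespace Pool.Agent.Helper69.SM

private theorem cutS (a b : ℝ) (ha : 0 < a) (hab : a < b) (hb : b < 1 / 2) (F : ℝ → ℝ)
    (hF : ContDiff ℝ ∞ F) (hFe : ∀ x, F (-x) = F x) :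
    ∃ f : TF, (∀ y, |y| ≤ a → f.h y = F y) := by
  let χ : ContDiffBump (0 : ℝ) := ⟨a, b, ha, hab⟩
  refine ⟨⟨fun y => χ y * F y, b, χ.contDiff.mul hF, ?_, by linarith, hb, ?_⟩, ?_⟩
  · intro x
    simp only [χ.neg, hFe]
  · intro x hx
    have : χ x = 0 := χ.zero_of_le_dist (by rw [Real.dist_eq, sub_zero]; exact hx)
    simp only [this, zero_mul]
  · intro y hy
    have : χ y = 1 := χ.one_of_mem_closedBall (by
      rw [Metric.mem_closedBall, Real.dist_eq, sub_zero]; exact hy)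
    simp only [this, one_mul]

private theorem SB_contDiff (c : ℝ) : ContDiff ℝ ∞ (SB c) := by
  unfold SB
  exact contDiff_const.mul (sinc_contDiff.comp (contDiff_const.mul contDiff_id))

/-- the kernel exists -/
theorem exists_KS {a : ℝ} (c : ℝ) (ha : 0 < a) (ha2 : a < 1 / 2) : ∃ f : TF, KS a c f := by
  obtain ⟨f, hf⟩ := cutS a ((a + 1 / 2) / 2) ha (by linarith) (by linarith)
    (fun y => SB c (2 * y)) ((SB_contDiff c).comp (contDiff_const.mul contDiff_id))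
    (fun x => by unfold SB; rw [mul_neg, mul_neg, Real.sinc_neg])
  exact ⟨f, hf⟩

theorem KS_zero {a c : ℝ} (ha : 0 < a) {f : TF} (hf : KS a c f) : f.h 0 = c := by
  rw [hf 0 (by rw [abs_zero]; exact ha.le)]
  simp [SB]

/-- a finite trigonometric sum -/
private theorem win_sum (f : TF) {c s T : ℝ} (hc : 0 < c) (hs : 1 ≤ s) (hT : 1 < T) (γ : ℝ) {ι : Type*} (A : Finset ι)
    (a ν : ι → ℝ) (h : ∀ i ∈ A, f.h (ν i / (s * Real.log T)) = SB c (ν i / Real.log T)) :
    ∫ t in (γ - hw c T)..(γ + hw c T), (∑ i ∈ A, a i * Real.cos (t * ν i)) =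
      ∫ t, (∑ i ∈ A, a i * Real.cos (t * ν i)) * krs f.h s T (t - γ) := by
  rw [intervalIntegral.integral_finsetSum]
  · have e : (fun t => (∑ i ∈ A, a i * Real.cos (t * ν i)) * krs f.h s T (t - γ)) =
        fun t => ∑ i ∈ A, (a i * Real.cos (t * ν i) * krs f.h s T (t - γ)) := by
      funext t
      rw [Finset.sum_mul]
    rw [e, integral_finsetSum]
    · refine Finset.sum_congr rfl fun i hi => ?_
      have e1 : ∫ t in (γ - hw c T)..(γ + hw c T), Real.cos (t * ν i) =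
          ∫ t, Real.cos (t * ν i) * krs f.h s T (t - γ) := by
        have h1 := Pool.Agent.Helper69.PP.window_cos_c hc hT γ (ν i)
        have h2 : Pool.Agent.Helper69.PP.hwc c T = hw c T := rfl
        have h3 : Pool.Agent.Helper69.PP.SBc c (ν i / Real.log T) = SB c (ν i / Real.log T) := rfl
        rw [h2, h3] at h1
        rw [h1, kernel_cos f hs hT, h i hi]
        ring
      rw [intervalIntegral.integral_const_mul, e1, ← integral_const_mul]
      congr 1
      funext t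
      ring
    · intro i _
      exact wf_int f hs hT γ (ν i) (a i)
  · intro i _
    apply Continuous.intervalIntegrable
    fun_prop

/-- the window identity -/
theorem window_FM {a c : ℝ} (hc : 0 < c) {f : TF} (hf : KS a c f) {T : ℝ} (hT : 1 < T) (γ : ℝ) :
    ∫ t in (γ - hw c T)..(γ + hw c T), FM (NN a T) t = ∫ t, FM (NN a T) t * krs f.h 2 T (t - γ) := by
  have hT0 : 0 < T := by linarith
  have hL : 0 < Real.log T := Real.log_pos hT
  have h1 := win_sum f hc (by norm_num : (1 : ℝ) ≤ 2) hT γ (CP (NN a T) ×ˢ CP (NN a T))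
    (fun z => cf z.1 * cf z.2)
    (fun z => Real.log ((z.1.1 * z.2.2 : ℕ) : ℝ) - Real.log ((z.1.2 * z.2.1 : ℕ) : ℝ)) (by
      intro z hz
      rw [Finset.mem_product] at hz
      obtain ⟨⟨a1, a1'⟩, ⟨a2, a2'⟩, -⟩ := mem_CP.1 hz.1
      obtain ⟨⟨b1, b1'⟩, ⟨b2, b2'⟩, -⟩ := mem_CP.1 hz.2
      have hlog : ∀ m n : ℕ, 1 ≤ m → 1 ≤ n → m ≤ NN a T → n ≤ NN a T →
          0 ≤ Real.log ((m * n : ℕ) : ℝ) ∧ Real.log ((m * n : ℕ) : ℝ) ≤ 2 * a * Real.log T := by
        intro m n hm hn hm2 hn2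
        refine ⟨Real.log_natCast_nonneg _, ?_⟩
        rw [← Real.log_rpow hT0]
        apply Real.log_le_log
        · exact_mod_cast Nat.mul_pos hm hn
        · refine le_trans ?_ (NN_sq hT0)
          have : m * n ≤ NN a T * NN a T := Nat.mul_le_mul hm2 hn2
          calc ((m * n : ℕ) : ℝ) ≤ ((NN a T * NN a T : ℕ) : ℝ) := by exact_mod_cast this
            _ = ((NN a T : ℕ) : ℝ) ^ 2 := by push_cast; ring
      have l1 := hlog _ _ a1 b2 a1' b2'
      have l2 := hlog _ _ a2 b1 a2' b1'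
      have h3 : f.h ((Real.log ((z.1.1 * z.2.2 : ℕ) : ℝ) - Real.log ((z.1.2 * z.2.1 : ℕ) : ℝ)) / (2 * Real.log T)) =
          SB c (2 * ((Real.log ((z.1.1 * z.2.2 : ℕ) : ℝ) - Real.log ((z.1.2 * z.2.1 : ℕ) : ℝ)) / (2 * Real.log T))) := by
        apply hf
        rw [abs_div, abs_of_pos (by positivity : (0 : ℝ) < 2 * Real.log T), div_le_iff₀ (by positivity), abs_le]
        constructor <;> linarith [l1.1, l1.2, l2.1, l2.2]
      have h4 : 2 * ((Real.log ((z.1.1 * z.2.2 : ℕ) : ℝ) - Real.log ((z.1.2 * z.2.1 : ℕ) : ℝ)) / (2 * Real.log T)) =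
          (Real.log ((z.1.1 * z.2.2 : ℕ) : ℝ) - Real.log ((z.1.2 * z.2.1 : ℕ) : ℝ)) / Real.log T := by
        field_simp
      rw [h4] at h3
      exact h3)
  exact h1

/-- main theorem with the length `a` of the polynomial -/
theorem sm_core {a b c : ℝ} (ha : 0 < a) (hb : 0 < b) (hb1 : b ≤ 1) (hab : 2 * a < b) (hc : 0 < c) (hc1 : c < 1)
    (h : 1 < c + 2 * c * a * (1 - Real.pi ^ 2 * c ^ 2 / 36 * a ^ 2)) :
    ∀ᶠ x : ℝ in atTop, ¬ NCl c x (x ^ b) := by
  have ha2 : a < 1 / 2 := by linarith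
  obtain ⟨g, hg, hg0, _, hOm⟩ := exists_g
  obtain ⟨Om, hOme⟩ : ∃ Om : ℝ, Om = ∫ x, g.h x := ⟨_, rfl⟩
  have hOm0 : 0 < Om := by rw [hOme]; exact hOm
  obtain ⟨f, hf⟩ := exists_KS c ha ha2
  obtain ⟨η, hη, hBN⟩ := BN_gt ha ha2 hc hc1 h
  obtain ⟨ε, hεd⟩ : ∃ ε : ℝ, ε = min (η / 2) (Om * η / 16) := ⟨_, rfl⟩
  have hε : 0 < ε := by rw [hεd]; exact lt_min (by positivity) (by positivity)
  have hε1 : ε ≤ η / 2 := by rw [hεd]; exact min_le_left _ _
  have hε2 : ε ≤ Om * η / 16 := by rw [hεd]; exact min_le_right _ _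
  obtain ⟨ε', hεd'⟩ : ∃ ε' : ℝ, ε' = min ε 1 := ⟨_, rfl⟩
  have hε' : 0 < ε' := by rw [hεd']; exact lt_min hε one_pos
  have hε1' : ε' ≤ ε := by rw [hεd']; exact min_le_left _ _
  have hε2' : ε' ≤ 1 := by rw [hεd']; exact min_le_right _ _
  filter_upwards [loc_main hc g f hg hg0 (s := 2) (by norm_num) le_rfl hb hb1 (fun T t => FM (NN a T) t)
      (fun T => FM_cont _) (fun T t => FM_nonneg _ t) ⟨2 * a, 16, hab, FM_crude a⟩
      (by
        filter_upwards [eventually_gt_atTop 1] with T hT γ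
        exact window_FM hc hf hT γ) hε',
    mean_FM g hb hab hε', mean_FMpss g ha ha2 hb hab hf hε', hBN, eventually_gt_atTop 1] with x h1 h2 h3 h4 hx hN
  have h5 := h1 hN
  have hH0 : 0 < x ^ b := Real.rpow_pos_of_pos (by linarith) b
  have hA1 : 1 ≤ AN (NN a x) := one_le_AN (one_le_NN ha hx.le)
  rw [KS_zero ha hf] at h5
  rw [← hOme] at h2 h3
  have e2 := abs_le.1 h2
  have e3 := abs_le.1 h3
  set I := ∫ t, wt g.h x (x ^ b) t * FM (NN a x) t with hI
  set J := ∫ t, wt g.h x (x ^ b) t * (FM (NN a x) t * pss f.h 2 x t) with hJ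
  set H := x ^ b with hH
  set A := AN (NN a x) with hA
  have h6 : (1 - c + η) * A ≤ BN c x (NN a x) := h4
  have h7 : H * Om * ((1 - c + η) * A) ≤ H * Om * BN c x (NN a x) := mul_le_mul_of_nonneg_left h6 (by positivity)
  -- `(c - 1 - ε') I ≤ J + ε' H`
  have h8 : (1 - c + ε') * I ≤ (1 - c + ε') * (H * Om * A + ε' * H) :=
    mul_le_mul_of_nonneg_left (by linarith [e2.2]) (by linarith)
  have h9 : (1 - c + ε') * (H * Om * A + ε' * H) ≤ (1 - c + ε') * (H * Om * A) + 2 * (ε' * H) := by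
    have : (1 - c + ε') * (ε' * H) ≤ 2 * (ε' * H) :=
      mul_le_mul_of_nonneg_right (by linarith) (by positivity)
    linarith
  have h10 : H * Om * A * (η - ε') ≤ 4 * (ε' * H) := by
    nlinarith [h5, h7, h8, h9, e3.2, e3.1]
  have h11 : H * Om * A * (η / 2) ≤ H * Om * A * (η - ε') :=
    mul_le_mul_of_nonneg_left (by linarith) (by positivity)
  have h12 : H * Om * 1 * (η / 2) ≤ H * Om * A * (η / 2) := by gcongr
  have h13 : 4 * (ε' * H) ≤ 4 * (Om * η / 16 * H) := by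
    have : ε' * H ≤ Om * η / 16 * H := mul_le_mul_of_nonneg_right (hε1'.trans hε2) hH0.le
    linarith
  have h14 : 0 < H * Om * η := by positivity
  nlinarith

/-- main theorem: every interval `[x, x + x^b]` contains close zeros -/
theorem sm_main {b c : ℝ} (hb : 0 < b) (hb1 : b ≤ 1) (hc : 0 < c) (hc1 : c < 1)
    (h : 1 < c * (1 + b) - Real.pi ^ 2 * c ^ 3 * b ^ 3 / 144) :
    ∀ᶠ x : ℝ in atTop, ¬ NCl c x (x ^ b) := by
  -- choice of `a < b/2`
  have hcont : Continuous (fun a : ℝ => c + 2 * c * a * (1 - Real.pi ^ 2 * c ^ 2 / 36 * a ^ 2)) := by fun_prop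
  have h0 : (1 : ℝ) < (fun a : ℝ => c + 2 * c * a * (1 - Real.pi ^ 2 * c ^ 2 / 36 * a ^ 2)) (b / 2) := by
    simp only
    have : c + 2 * c * (b / 2) * (1 - Real.pi ^ 2 * c ^ 2 / 36 * (b / 2) ^ 2) =
        c * (1 + b) - Real.pi ^ 2 * c ^ 3 * b ^ 3 / 144 := by ring
    rw [this]
    exact h
  have h1 : ∀ᶠ a in 𝓝 (b / 2), (1 : ℝ) < c + 2 * c * a * (1 - Real.pi ^ 2 * c ^ 2 / 36 * a ^ 2) :=
    hcont.continuousAt.eventually (lt_mem_nhds h0)
  have h2 : ∀ᶠ a in 𝓝 (b / 2), (0 : ℝ) < a := lt_mem_nhds (by linarith)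
  have h3 : ∀ᶠ a in 𝓝[<] (b / 2), a < b / 2 := self_mem_nhdsWithin
  obtain ⟨a, ha1, ha2, ha3⟩ := ((h1.filter_mono nhdsWithin_le_nhds).and
    ((h2.filter_mono nhdsWithin_le_nhds).and h3)).exists
  exact sm_core ha2 hb hb1 (by linarith) hc hc1 ha1

end Pool.Agent.Helper69.SM
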